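import Mathlib

set_option autoImplicit false

namespace Pool.Agent.Results.MP_852f00_co.BoxClassification

open Finset
open scoped Pointwise

/-- The vertex boundary of a finite set `S` of `ℤ^d` in the directed Cayley graph with generating set `U`:
the number of points outside `S` of the form `x + u` with `x ∈ S` and `u ∈ U`. -/
noncomputable def vb {d : ℕ} (U S : Finset (Fin d → ℤ)) : ℕ :=
  Set.ncard {y : Fin d → ℤ | y ∉ S ∧ ∃ x ∈ S, ∃ u ∈ U, y = x + u}

/-- The least vertex boundary of a set of `n` points of `ℤ^d`. -/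
noncomputable def vbMin {d : ℕ} (U : Finset (Fin d → ℤ)) (n : ℕ) : ℕ :=
  sInf {b : ℕ | ∃ S : Finset (Fin d → ℤ), S.card = n ∧ vb U S = b}

/-- The punctured box: all `x ≠ 0` in `ℤ^2` with `a ≤ x 0 ≤ a + p` and `b ≤ x 1 ≤ b + q`. -/
noncomputable def boxGen (p q : ℕ) (a b : ℤ) : Finset (Fin 2 → ℤ) :=
  (Finset.Icc (![a, b] : Fin 2 → ℤ) ![a + p, b + q]).erase 0

/-- one step thickening gains at least one point per line -/
lemma step (i j : Fin 2) (hij : i ≠ j) (S : Finset (Fin 2 → ℤ)) :
    S.card + (S.image (fun x => x j)).card ≤ (S ∪ S.image (fun x => x + Pi.single i 1)).card := by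
  classical
  have h1 : S.image (fun x => x j) ⊆ ((S.image (fun x => x + Pi.single i 1)) \ S).image (fun x => x j) := by
    intro y hy
    rw [mem_image] at hy
    obtain ⟨x0, hx0, rfl⟩ := hy
    obtain ⟨x, hx, hmax⟩ := exists_max_image (S.filter (fun x => x j = x0 j)) (fun x => x i)
      ⟨x0, by simp [hx0]⟩
    rw [mem_filter] at hx
    rw [mem_image]
    refine ⟨x + Pi.single i 1, ?_, ?_⟩
    · rw [mem_sdiff, mem_image]
      refine ⟨⟨x, hx.1, rfl⟩, ?_⟩
      intro hmem
      have := hmax (x + Pi.single i 1) (by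
        rw [mem_filter]
        refine ⟨hmem, ?_⟩
        simp [hx.2, hij.symm])
      simp at this
    · simp [hx.2, hij.symm]
  have h2 := (card_le_card h1).trans card_image_le
  have h3 : (S ∪ S.image (fun x => x + Pi.single i 1)).card
      = S.card + ((S.image (fun x => x + Pi.single i 1)) \ S).card := by
    rw [← card_union_of_disjoint disjoint_sdiff, union_sdiff_self_eq_union]
  omega

/-- the `k`-fold thickening in direction `i` -/
noncomputable def thick (i : Fin 2) (S : Finset (Fin 2 → ℤ)) : ℕ → Finset (Fin 2 → ℤ)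
  | 0 => S
  | k + 1 => thick i S k ∪ (thick i S k).image (fun x => x + Pi.single i 1)

lemma thick_sub (i : Fin 2) (S : Finset (Fin 2 → ℤ)) (k : ℕ) :
    S ⊆ thick i S k := by
  induction k with
  | zero => exact subset_rfl
  | succ k ih => exact ih.trans subset_union_left

lemma thick_card (i j : Fin 2) (hij : i ≠ j) (S : Finset (Fin 2 → ℤ)) (k : ℕ) :
    S.card + k * (S.image (fun x => x j)).card ≤ (thick i S k).card := by
  induction k with
  | zero => simp [thick]
  | succ k ih =>
    have h := step i j hij (thick i S k)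
    have h2 : (S.image (fun x => x j)).card ≤ ((thick i S k).image (fun x => x j)).card :=
      card_le_card (image_subset_image (thick_sub i S k))
    have : (thick i S (k+1)) = thick i S k ∪ (thick i S k).image (fun x => x + Pi.single i 1) := rfl
    rw [this]
    have : (k + 1) * (S.image (fun x => x j)).card = k * (S.image (fun x => x j)).card
      + (S.image (fun x => x j)).card := by ring
    omega

/-- thickening in direction `i` increases the `i`-projection by one at each step -/
lemma thick_proj (i : Fin 2) (S : Finset (Fin 2 → ℤ)) (hS : S.Nonempty) (k : ℕ) :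
    (S.image (fun x => x i)).card + k ≤ ((thick i S k).image (fun x => x i)).card := by
  induction k with
  | zero => simp [thick]
  | succ k ih =>
    have hne : ((thick i S k).image (fun x => x i)).Nonempty := by
      rw [image_nonempty]; exact hS.mono (thick_sub i S k)
    set A := (thick i S k).image (fun x => x i) with hA
    have h1 : insert (A.max' hne + 1) A ⊆ (thick i S (k+1)).image (fun x => x i) := by
      intro y hy
      rw [mem_insert] at hy
      have hun : (thick i S (k+1)) = thick i S k ∪ (thick i S k).image (fun x => x + Pi.single i 1) := rfl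
      rcases hy with rfl | hy
      · obtain ⟨x, hx, hxe⟩ := Finset.mem_image.mp (A.max'_mem hne)
        rw [mem_image]
        refine ⟨x + Pi.single i 1, ?_, ?_⟩
        · rw [hun, mem_union]; right; exact mem_image_of_mem _ hx
        · simp only [Pi.add_apply, Pi.single_eq_same]
          rw [hxe]
      · rw [hA, mem_image] at hy
        obtain ⟨x, hx, hxe⟩ := hy
        rw [mem_image]
        exact ⟨x, by rw [hun, mem_union]; left; exact hx, hxe⟩
    have h2 : (A.max' hne + 1) ∉ A := by
      intro h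
      have := A.le_max' _ h
      omega
    have h3 := card_le_card h1
    rw [card_insert_of_notMem h2] at h3
    omega

lemma mem_thick (i : Fin 2) (S : Finset (Fin 2 → ℤ)) (k : ℕ) (x : Fin 2 → ℤ)
    (hx : x ∈ thick i S k) : ∃ s ∈ S, ∃ m : ℕ, m ≤ k ∧ x = s + Pi.single i (m : ℤ) := by
  induction k generalizing x with
  | zero => exact ⟨x, hx, 0, le_rfl, by simp⟩
  | succ k ih =>
    have hun : (thick i S (k+1)) = thick i S k ∪ (thick i S k).image (fun x => x + Pi.single i 1) := rfl
    rw [hun, mem_union, mem_image] at hx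
    rcases hx with hx | ⟨y, hy, rfl⟩
    · obtain ⟨s, hs, m, hm, he⟩ := ih x hx
      exact ⟨s, hs, m, by omega, he⟩
    · obtain ⟨s, hs, m, hm, he⟩ := ih y hy
      refine ⟨s, hs, m + 1, by omega, ?_⟩
      rw [he, add_assoc, ← Pi.single_add]
      push_cast
      rfl

lemma mem_boxGen (p q : ℕ) (a b : ℤ) (u : Fin 2 → ℤ) :
    u ∈ boxGen p q a b ↔ u ≠ 0 ∧ (a ≤ u 0 ∧ u 0 ≤ a + p) ∧ (b ≤ u 1 ∧ u 1 ≤ b + q) := by
  unfold boxGen
  rw [mem_erase, mem_Icc, Pi.le_def, Pi.le_def]
  simp only [Fin.forall_fin_two, Matrix.cons_val_zero, Matrix.cons_val_one]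
  tauto

lemma bdry_finite {d : ℕ} (U S : Finset (Fin d → ℤ)) :
    {y : Fin d → ℤ | y ∉ S ∧ ∃ x ∈ S, ∃ u ∈ U, y = x + u}.Finite := by
  apply Set.Finite.subset (S + U).finite_toSet
  rintro y ⟨-, x, hx, u, hu, rfl⟩
  exact add_mem_add hx hu

/-- number of rows -/
noncomputable def rows (S : Finset (Fin 2 → ℤ)) : ℕ := (S.image (fun x => x 1)).card

/-- number of columns -/
noncomputable def cols (S : Finset (Fin 2 → ℤ)) : ℕ := (S.image (fun x => x 0)).card

lemma rows_mono {S T : Finset (Fin 2 → ℤ)} (h : S ⊆ T) : rows S ≤ rows T :=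
  card_le_card (image_subset_image h)

lemma cols_mono {S T : Finset (Fin 2 → ℤ)} (h : S ⊆ T) : cols S ≤ cols T :=
  card_le_card (image_subset_image h)

/-- The lower bound: `p * rows + q * columns + p * q`. -/
lemma vb_lower (p q : ℕ) (a b : ℤ) (S : Finset (Fin 2 → ℤ)) (hS : S.Nonempty) :
    p * rows S + q * cols S + p * q ≤ vb (boxGen p q a b) S := by
  classical
  set S1 := thick 0 S p with hS1
  set S2 := thick 1 S1 q with hS2
  have e1 := thick_card 0 1 (by decide) S p
  have e2 := thick_card 1 0 (by decide) S1 q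
  have e3 := thick_proj 0 S hS p
  rw [← hS1] at e1 e3
  rw [← hS2] at e2
  set T := S2.image (fun x => x + ![a, b]) with hT
  have hTc : T.card = S2.card := by
    rw [hT]
    apply card_image_of_injective
    intro x y hxy
    exact add_right_cancel hxy
  have hsub : ((T \ S : Finset (Fin 2 → ℤ)) : Set (Fin 2 → ℤ)) ⊆
      {y : Fin 2 → ℤ | y ∉ S ∧ ∃ x ∈ S, ∃ u ∈ boxGen p q a b, y = x + u} := by
    intro y hy
    rw [mem_coe, mem_sdiff, hT, mem_image] at hy
    obtain ⟨⟨z, hz, rfl⟩, hyS⟩ := hy
    refine ⟨hyS, ?_⟩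
    obtain ⟨z1, hz1, m', hm', rfl⟩ := mem_thick 1 S1 q z hz
    obtain ⟨s, hs, m, hm, rfl⟩ := mem_thick 0 S p z1 hz1
    refine ⟨s, hs, Pi.single 0 (m : ℤ) + Pi.single 1 (m' : ℤ) + ![a, b], ?_, ?_⟩
    · rw [mem_boxGen]
      refine ⟨?_, ?_, ?_⟩
      · intro h0
        apply hyS
        have : s + Pi.single 0 (m : ℤ) + Pi.single 1 (m' : ℤ) + ![a, b]
            = s + (Pi.single 0 (m : ℤ) + Pi.single 1 (m' : ℤ) + ![a, b]) := by
          simp only [add_assoc]
        rw [this, h0, add_zero]
        exact hs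
      · have hm2 : (m : ℤ) ≤ p := by exact_mod_cast hm
        simp
        omega
      · have hm2 : (m' : ℤ) ≤ q := by exact_mod_cast hm'
        simp
        omega
    · simp only [add_assoc]
  have hcard : (T \ S).card ≤ vb (boxGen p q a b) S := by
    unfold vb
    rw [← Set.ncard_coe_finset]
    exact Set.ncard_le_ncard hsub (bdry_finite _ _)
  have h4 : T.card ≤ (T \ S).card + S.card := by
    have := card_le_card_sdiff_add_card (s := T) (t := S)
    omega
  unfold rows cols
  set R := (S.image (fun x => x 1)).card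
  set C := (S.image (fun x => x 0)).card
  set C1 := (S1.image (fun x => x 0)).card
  have h5 : q * (C + p) ≤ q * C1 := Nat.mul_le_mul_left _ e3
  have h6 : q * (C + p) = q * C + p * q := by ring
  omega

lemma card_box (a b : ℤ) (m n : ℕ) :
    (Finset.Icc (![a, b] : Fin 2 → ℤ) ![a + m - 1, b + n - 1]).card = m * n := by
  rw [Pi.card_Icc]
  simp

lemma mem_box (a b c d : ℤ) (x : Fin 2 → ℤ) :
    x ∈ Finset.Icc (![a, b] : Fin 2 → ℤ) ![c, d] ↔ (a ≤ x 0 ∧ x 0 ≤ c) ∧ (b ≤ x 1 ∧ x 1 ≤ d) := by
  rw [mem_Icc, Pi.le_def, Pi.le_def]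
  simp only [Fin.forall_fin_two, Matrix.cons_val_zero, Matrix.cons_val_one]
  tauto

/-- An upper bound for the boundary from a finite set containing `S` and `S + U`. -/
lemma vb_upper {U S E : Finset (Fin 2 → ℤ)} (hSE : S ⊆ E) (hU : ∀ x ∈ S, ∀ u ∈ U, x + u ∈ E) :
    vb U S + S.card ≤ E.card := by
  classical
  have hsub : {y : Fin 2 → ℤ | y ∉ S ∧ ∃ x ∈ S, ∃ u ∈ U, y = x + u}
      ⊆ ((E \ S : Finset (Fin 2 → ℤ)) : Set (Fin 2 → ℤ)) := by
    rintro y ⟨hy, x, hx, u, hu, rfl⟩
    rw [mem_coe, mem_sdiff]
    exact ⟨hU x hx u hu, hy⟩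
  have h1 : vb U S ≤ (E \ S).card := by
    unfold vb
    rw [← Set.ncard_coe_finset]
    exact Set.ncard_le_ncard hsub (finite_toSet _)
  have h2 : (E \ S).card + S.card = E.card := card_sdiff_add_card_eq_card hSE
  omega

/-- The rectangle with `m` columns and `n` rows. -/
noncomputable def rect (m n : ℕ) : Finset (Fin 2 → ℤ) :=
  Finset.Icc (![0, 0] : Fin 2 → ℤ) ![(m : ℤ) - 1, (n : ℤ) - 1]

lemma card_rect (m n : ℕ) : (rect m n).card = m * n := by
  have := card_box 0 0 m n
  simp only [zero_add] at this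
  exact this

lemma vb_rect (p q : ℕ) (a b : ℤ) (ha : a ≤ 0) (ha' : 0 ≤ a + p) (hb : b ≤ 0) (hb' : 0 ≤ b + q)
    (m n : ℕ) :
    vb (boxGen p q a b) (rect m n) + m * n ≤ (m + p) * (n + q) := by
  classical
  have hbig := card_box a b (m + p) (n + q)
  have h := vb_upper (U := boxGen p q a b) (S := rect m n)
    (E := Finset.Icc (![a, b] : Fin 2 → ℤ) ![a + ((m + p : ℕ) : ℤ) - 1, b + ((n + q : ℕ) : ℤ) - 1]) ?_ ?_
  · rw [card_rect, hbig] at h
    exact h
  · intro x hx
    unfold rect at hx
    rw [mem_box] at hx ⊢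
    push_cast
    omega
  · intro x hx u hu
    unfold rect at hx
    rw [mem_box] at hx ⊢
    rw [mem_boxGen] at hu
    simp only [Pi.add_apply]
    push_cast
    omega

lemma card_le_rows_cols (S : Finset (Fin 2 → ℤ)) : S.card ≤ rows S * cols S := by
  classical
  unfold rows cols
  rw [← card_product]
  apply card_le_card_of_injOn (fun x => (x 1, x 0))
  · intro x hx
    rw [mem_coe, mem_product]
    exact ⟨mem_image_of_mem _ hx, mem_image_of_mem _ hx⟩
  · intro x _ y _ hxy
    simp only [Prod.mk.injEq] at hxy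
    ext i
    fin_cases i
    · exact hxy.2
    · exact hxy.1

lemma vbMin_le {d : ℕ} (U S : Finset (Fin d → ℤ)) : vbMin U S.card ≤ vb U S :=
  Nat.sInf_le ⟨S, rfl, rfl⟩

lemma vbMin_mem (U : Finset (Fin 2 → ℤ)) (n : ℕ) :
    ∃ T : Finset (Fin 2 → ℤ), T.card = n ∧ vb U T = vbMin U n := by
  have hne : {b : ℕ | ∃ S : Finset (Fin 2 → ℤ), S.card = n ∧ vb U S = b}.Nonempty :=
    ⟨_, rect n 1, by rw [card_rect]; ring, rfl⟩
  exact Nat.sInf_mem hne

/-- If a set whose size is that of an `m`-column, `n`-row rectangle is optimal, its weighted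
side sum is at most that of the rectangle. -/
lemma opt_le (g p q : ℕ) (hg : 1 ≤ g) (a b : ℤ) (ha : a ≤ 0) (ha' : 0 ≤ a + (g * p : ℕ)) (hb : b ≤ 0)
    (hb' : 0 ≤ b + (g * q : ℕ)) (S : Finset (Fin 2 → ℤ)) (m n : ℕ) (hc : S.card = m * n)
    (hpos : 1 ≤ m * n) (hopt : vb (boxGen (g * p) (g * q) a b) S = vbMin (boxGen (g * p) (g * q) a b) (m * n)) :
    p * rows S + q * cols S ≤ p * n + q * m := by
  have hne : S.Nonempty := by rw [← card_pos]; omega
  have h1 := vb_lower (g * p) (g * q) a b S hne
  have h2 := vb_rect (g * p) (g * q) a b ha ha' hb hb' m n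
  have h3 : vbMin (boxGen (g * p) (g * q) a b) (m * n) ≤ vb (boxGen (g * p) (g * q) a b) (rect m n) := by
    have := vbMin_le (boxGen (g * p) (g * q) a b) (rect m n)
    rwa [card_rect] at this
  have h4 : g * (p * rows S + q * cols S) ≤ g * (p * n + q * m) := by
    have e1 : g * p * rows S + g * q * cols S = g * (p * rows S + q * cols S) := by ring
    have e2 : (m + g * p) * (n + g * q) = m * n + g * (p * n + q * m) + g * p * (g * q) := by ring
    omega
  exact Nat.le_of_mul_le_mul_left h4 (by omega)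

/-- For coprime `p`, `q` and every large `v` there is a rectangle with weighted side sum `v` and
nearly the largest possible area. -/
lemma exists_rect (p q : ℕ) (hp : 1 ≤ p) (hq : 1 ≤ q) (hco : Nat.Coprime p q) (N v : ℕ)
    (hv : (2 * p * q) ^ 2 + 4 * p * q * N + 1 ≤ v) :
    ∃ m n : ℕ, 1 ≤ m * n ∧ N ≤ m * n ∧ p * n + q * m = v ∧ (v - 1) ^ 2 < 4 * p * q * (m * n) := by
  have hco' : IsCoprime (p : ℤ) (q : ℤ) := Nat.isCoprime_iff_coprime.mpr hco
  obtain ⟨α, β, hab⟩ := hco'
  -- `α * p + β * q = 1`
  set D : ℤ := 2 * p * q with hD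
  have hp' : (1 : ℤ) ≤ p := by exact_mod_cast hp
  have hq' : (1 : ℤ) ≤ q := by exact_mod_cast hq
  have hpq : (1 : ℤ) ≤ p * q := by nlinarith
  have hDpos : 0 < D := by rw [hD]; nlinarith
  set s : ℤ := ((v : ℤ) * (α * p - β * q)) / D with hs
  set δ : ℤ := ((v : ℤ) * (α * p - β * q)) % D with hδ
  have hδ0 : 0 ≤ δ := Int.emod_nonneg _ hDpos.ne'
  have hδ1 : δ < D := Int.emod_lt_of_pos _ hDpos
  have hdiv : D * s + δ = (v : ℤ) * (α * p - β * q) := Int.mul_ediv_add_emod _ _
  set n' : ℤ := v * α - s * q with hn'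
  set m' : ℤ := v * β + s * p with hm'
  have hsum : (p : ℤ) * n' + q * m' = v := by
    rw [hn', hm']
    have : (p : ℤ) * (v * α - s * q) + q * (v * β + s * p) = v * (α * p + β * q) := by ring
    rw [this, hab, mul_one]
  have hdiff : (p : ℤ) * n' - q * m' = δ := by
    have : (p : ℤ) * n' - q * m' = (v : ℤ) * (α * p - β * q) - D * s := by
      rw [hn', hm', hD]; ring
    rw [this, ← hdiv]; ring
  have hvZ : (D ^ 2 + 4 * p * q * N + 1 : ℤ) ≤ v := by
    rw [hD]; exact_mod_cast hv
  have hN0 : (0 : ℤ) ≤ N := by positivity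
  have hNpq : (0 : ℤ) ≤ 4 * p * q * N := by positivity
  have hDv : D < v := by nlinarith
  have hn_pos : 0 < n' := by
    have h1 : 2 * ((p : ℤ) * n') = v + δ := by linarith
    by_contra hcon
    push Not at hcon
    have : (p : ℤ) * n' ≤ 0 := by nlinarith
    linarith
  have hm_pos : 0 < m' := by
    have h1 : 2 * ((q : ℤ) * m') = v - δ := by linarith
    by_contra hcon
    push Not at hcon
    have : (q : ℤ) * m' ≤ 0 := by nlinarith
    linarith
  obtain ⟨n, hn⟩ := Int.eq_ofNat_of_zero_le hn_pos.le
  obtain ⟨m, hm⟩ := Int.eq_ofNat_of_zero_le hm_pos.le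
  have hprod : 4 * (p : ℤ) * q * (m' * n') = v ^ 2 - δ ^ 2 := by
    have : 4 * (p : ℤ) * q * (m' * n') = ((p : ℤ) * n' + q * m') ^ 2 - ((p : ℤ) * n' - q * m') ^ 2 := by
      ring
    rw [this, hsum, hdiff]
  have hδ2 : δ ^ 2 < D ^ 2 := by nlinarith
  have hbig : ((v : ℤ) - 1) ^ 2 < 4 * (p : ℤ) * q * (m' * n') := by
    rw [hprod]
    nlinarith
  have hv1 : 1 ≤ v := by omega
  have hcast : (((v - 1 : ℕ)) : ℤ) = (v : ℤ) - 1 := by push_cast [hv1]; ring
  have hfinal : (v - 1) ^ 2 < 4 * p * q * (m * n) := by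
    have : (((v - 1) ^ 2 : ℕ) : ℤ) < ((4 * p * q * (m * n) : ℕ) : ℤ) := by
      push_cast [hv1]
      rw [hm, hn] at hbig
      simpa using hbig
    exact_mod_cast this
  refine ⟨m, n, ?_, ?_, ?_, hfinal⟩
  · have h1 : 0 < m := by
      have : (0 : ℤ) < m := by rw [hm] at hm_pos; simpa using hm_pos
      exact_mod_cast this
    have h2 : 0 < n := by
      have : (0 : ℤ) < n := by rw [hn] at hn_pos; simpa using hn_pos
      exact_mod_cast this
    exact Nat.mul_pos h1 h2
  · by_contra hcon
    push Not at hcon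
    have h1 : 4 * p * q * (m * n) ≤ 4 * p * q * N := Nat.mul_le_mul_left _ hcon.le
    have h2 : 4 * p * q * N ≤ v - 1 := by
      have : 0 ≤ (2 * p * q) ^ 2 := Nat.zero_le _
      omega
    have h3 : v - 1 ≤ (v - 1) ^ 2 := by
      rcases Nat.eq_zero_or_pos (v - 1) with h | h
      · rw [h]; norm_num
      · exact Nat.le_self_pow (by norm_num) _
    omega
  · have : ((p * n + q * m : ℕ) : ℤ) = v := by
      push_cast
      rw [hm, hn] at hsum
      simpa using hsum
    exact_mod_cast this

/-- If an optimal set has the size of the rectangle of `exists_rect`, its weighted side sum is `v`. -/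
lemma side_sum_eq (p q R C v k : ℕ) (h1 : k ≤ R * C) (h2 : p * R + q * C ≤ v)
    (h3 : (v - 1) ^ 2 < 4 * p * q * k) : p * R + q * C = v := by
  by_contra hcon
  have h4 : p * R + q * C ≤ v - 1 := by omega
  have h5 : 4 * p * q * k ≤ 4 * p * q * (R * C) := Nat.mul_le_mul_left _ h1
  have h6 : 4 * p * q * (R * C) ≤ (p * R + q * C) ^ 2 := by
    have : (0 : ℤ) ≤ ((p * R : ℤ) - q * C) ^ 2 := sq_nonneg _
    zify
    nlinarith
  have h7 : (p * R + q * C) ^ 2 ≤ (v - 1) ^ 2 := Nat.pow_le_pow_left h4 2
  omega

/-- The case of coprime side lengths different from `(1,1)`. -/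
theorem fails_infinitely (g p q : ℕ) (hg : 1 ≤ g) (hp : 1 ≤ p) (hq : 1 ≤ q) (hco : Nat.Coprime p q)
    (hpq : p ≠ q) (a b : ℤ) (ha : a ≤ 0) (ha' : 0 ≤ a + (g * p : ℕ)) (hb : b ≤ 0)
    (hb' : 0 ≤ b + (g * q : ℕ)) (w : ℕ → (Fin 2 → ℤ)) (hw : Function.Bijective w) :
    {n : ℕ | vbMin (boxGen (g * p) (g * q) a b) n
      < vb (boxGen (g * p) (g * q) a b) ((range n).image w)}.Infinite := by
  classical
  intro hfin
  obtain ⟨N, hN⟩ := hfin.bddAbove
  set U := boxGen (g * p) (g * q) a b with hU
  set S : ℕ → Finset (Fin 2 → ℤ) := fun n => (range n).image w with hS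
  have hcard : ∀ n, (S n).card = n := by
    intro n
    rw [hS]
    simp only
    rw [card_image_of_injective _ hw.1, card_range]
  have hmono : ∀ m n, m ≤ n → S m ⊆ S n := by
    intro m n hmn
    exact image_subset_image (range_mono hmn)
  have hopt : ∀ n, N + 1 ≤ n → vb U (S n) = vbMin U n := by
    intro n hn
    apply le_antisymm
    · by_contra hcon
      push Not at hcon
      have : n ≤ N := hN (show n ∈ {n : ℕ | vbMin U n < vb U ((range n).image w)} from hcon)
      omega
    · have := vbMin_le U (S n)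
      rwa [hcard] at this
  set V := (2 * p * q) ^ 2 + 4 * p * q * (N + 1) + 1 with hV
  have key : ∀ v, V ≤ v → ∃ k, (v - 1) ^ 2 < 4 * p * q * k ∧ k ≤ rows (S k) * cols (S k) ∧
      p * rows (S k) + q * cols (S k) = v := by
    intro v hv
    obtain ⟨m, n, h1, h2, h3, h4⟩ := exists_rect p q hp hq hco (N + 1) v hv
    refine ⟨m * n, h4, ?_, ?_⟩
    · have := card_le_rows_cols (S (m * n))
      rwa [hcard] at this
    · apply side_sum_eq p q _ _ v (m * n) _ _ h4
      · have := card_le_rows_cols (S (m * n))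
        rwa [hcard] at this
      · have := opt_le g p q hg a b ha ha' hb hb' (S (m * n)) m n (hcard _) h1 (hopt _ h2)
        omega
  choose! f hf using key
  -- monotonicity of the sizes
  have hfm : ∀ v, V ≤ v → f v ≤ f (v + 1) := by
    intro v hv
    obtain ⟨h1, h2, h3⟩ := hf v hv
    obtain ⟨h1', h2', h3'⟩ := hf (v + 1) (by omega)
    have h4 : 4 * p * q * f v ≤ v ^ 2 := by
      calc 4 * p * q * f v ≤ 4 * p * q * (rows (S (f v)) * cols (S (f v))) := Nat.mul_le_mul_left _ h2
        _ ≤ (p * rows (S (f v)) + q * cols (S (f v))) ^ 2 := by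
            have : (0 : ℤ) ≤ ((p * rows (S (f v)) : ℤ) - q * cols (S (f v))) ^ 2 := sq_nonneg _
            zify
            nlinarith
        _ = v ^ 2 := by rw [h3]
    have h5 : 4 * p * q * f v < 4 * p * q * f (v + 1) := by
      have : (v + 1 - 1) ^ 2 = v ^ 2 := by rw [Nat.add_sub_cancel]
      omega
    exact (Nat.lt_of_mul_lt_mul_left h5).le
  have hstep : ∀ v, V ≤ v → rows (S (f v)) ≤ rows (S (f (v + 1))) ∧
      cols (S (f v)) ≤ cols (S (f (v + 1))) ∧
      p * rows (S (f (v + 1))) + q * cols (S (f (v + 1)))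
        = p * rows (S (f v)) + q * cols (S (f v)) + 1 := by
    intro v hv
    have hsub := hmono _ _ (hfm v hv)
    obtain ⟨-, -, h3⟩ := hf v hv
    obtain ⟨-, -, h3'⟩ := hf (v + 1) (by omega)
    exact ⟨rows_mono hsub, cols_mono hsub, by omega⟩
  rcases Nat.lt_or_ge 1 q with hq2 | hq1
  · -- the number of columns is eventually constant
    have hc : ∀ v, V ≤ v → cols (S (f v)) = cols (S (f V)) := by
      intro v hv
      induction v, hv using Nat.le_induction with
      | base => rfl
      | succ v hv ih =>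
        obtain ⟨h1, h2, h3⟩ := hstep v hv
        rw [← ih]
        by_contra hne
        have hlt : cols (S (f v)) + 1 ≤ cols (S (f (v + 1))) := by omega
        have h4 : q * (cols (S (f v)) + 1) ≤ q * cols (S (f (v + 1))) := Nat.mul_le_mul_left _ hlt
        have h5 : p * rows (S (f v)) ≤ p * rows (S (f (v + 1))) := Nat.mul_le_mul_left _ h1
        have h6 : q * (cols (S (f v)) + 1) = q * cols (S (f v)) + q := by ring
        omega
    set c := cols (S (f V)) with hcdef
    set v := V + 4 * q * c + 4 with hv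
    have hVv : V ≤ v := by omega
    obtain ⟨h1, h2, h3⟩ := hf v hVv
    rw [hc v hVv] at h2 h3
    have h4 : 4 * p * q * f v ≤ 4 * q * c * v := by
      calc 4 * p * q * f v ≤ 4 * p * q * (rows (S (f v)) * c) := Nat.mul_le_mul_left _ h2
        _ = 4 * q * c * (p * rows (S (f v))) := by ring
        _ ≤ 4 * q * c * v := Nat.mul_le_mul_left _ (by omega)
    have h5 : (v - 1) ^ 2 < 4 * q * c * v := lt_of_lt_of_le h1 h4
    have h6 : 4 * q * c + 3 ≤ v - 1 := by omega
    obtain ⟨u, hu⟩ : ∃ u, v = u + 1 := ⟨v - 1, by omega⟩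
    rw [hu, Nat.add_sub_cancel] at h5
    rw [hu, Nat.add_sub_cancel] at h6
    nlinarith
  · -- `q = 1`, so `p > 1` and the number of rows is eventually constant
    have hq1' : q = 1 := by omega
    have hp2 : 1 < p := by omega
    have hc : ∀ v, V ≤ v → rows (S (f v)) = rows (S (f V)) := by
      intro v hv
      induction v, hv using Nat.le_induction with
      | base => rfl
      | succ v hv ih =>
        obtain ⟨h1, h2, h3⟩ := hstep v hv
        rw [← ih]
        by_contra hne
        have hlt : rows (S (f v)) + 1 ≤ rows (S (f (v + 1))) := by omega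
        have h4 : p * (rows (S (f v)) + 1) ≤ p * rows (S (f (v + 1))) := Nat.mul_le_mul_left _ hlt
        have h5 : q * cols (S (f v)) ≤ q * cols (S (f (v + 1))) := Nat.mul_le_mul_left _ h2
        have h6 : p * (rows (S (f v)) + 1) = p * rows (S (f v)) + p := by ring
        omega
    set c := rows (S (f V)) with hcdef
    set v := V + 4 * p * c + 4 with hv
    have hVv : V ≤ v := by omega
    obtain ⟨h1, h2, h3⟩ := hf v hVv
    rw [hc v hVv] at h2 h3
    have h4 : 4 * p * q * f v ≤ 4 * p * c * v := by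
      calc 4 * p * q * f v ≤ 4 * p * q * (c * cols (S (f v))) := Nat.mul_le_mul_left _ h2
        _ = 4 * p * c * (q * cols (S (f v))) := by ring
        _ ≤ 4 * p * c * v := Nat.mul_le_mul_left _ (by omega)
    have h5 : (v - 1) ^ 2 < 4 * p * c * v := lt_of_lt_of_le h1 h4
    have h6 : 4 * p * c + 3 ≤ v - 1 := by omega
    obtain ⟨u, hu⟩ : ∃ u, v = u + 1 := ⟨v - 1, by omega⟩
    rw [hu, Nat.add_sub_cancel] at h5
    rw [hu, Nat.add_sub_cancel] at h6
    nlinarith

/-! ### Squares: the spiral ordering -/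

/-- lower left coordinate of the `k`-th square -/
def lo (k : ℕ) : ℤ := -((k / 2 : ℕ) : ℤ)

/-- the new coordinate when passing from the `k`-th to the `k+1`-st square -/
def ne (k : ℕ) : ℤ := if k % 2 = 0 then lo k + k else lo k - 1

lemma lo_succ (k : ℕ) : lo (k + 1) = if k % 2 = 0 then lo k else lo k - 1 := by
  unfold lo
  split_ifs with h
  · have : (k + 1) / 2 = k / 2 := by omega
    rw [this]
  · have : (k + 1) / 2 = k / 2 + 1 := by omega
    rw [this]
    push_cast
    ring

/-- the `k`-th square, of side `k` -/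
noncomputable def sq (k : ℕ) : Finset (Fin 2 → ℤ) :=
  Finset.Icc (![lo k, lo k] : Fin 2 → ℤ) ![lo k + k - 1, lo k + k - 1]

lemma mem_sq (k : ℕ) (x : Fin 2 → ℤ) :
    x ∈ sq k ↔ (lo k ≤ x 0 ∧ x 0 ≤ lo k + k - 1) ∧ (lo k ≤ x 1 ∧ x 1 ≤ lo k + k - 1) := by
  unfold sq
  rw [mem_box]

lemma card_sq (k : ℕ) : (sq k).card = k * k := by
  unfold sq
  exact card_box (lo k) (lo k) k k

lemma sq_succ (k : ℕ) : sq k ⊆ sq (k + 1) := by
  intro x hx
  rw [mem_sq] at hx ⊢
  rw [lo_succ]
  split_ifs <;> push_cast <;> omega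

lemma sq_mono {k l : ℕ} (h : k ≤ l) : sq k ⊆ sq l := by
  induction l, h using Nat.le_induction with
  | base => exact subset_rfl
  | succ l _ ih => exact ih.trans (sq_succ l)

/-- the `r`-th point of the `k`-th shell -/
def shell (k r : ℕ) : Fin 2 → ℤ :=
  if r < k then ![ne k, lo k + r] else ![lo (k + 1) + ((r - k : ℕ) : ℤ), ne k]

lemma shell_mem (k r : ℕ) (hr : r ≤ 2 * k) : shell k r ∈ sq (k + 1) := by
  rw [mem_sq, shell, ne, lo_succ]
  split_ifs <;> simp <;> omega

lemma shell_notMem (k r : ℕ) : shell k r ∉ sq k := by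
  rw [mem_sq, shell, ne, lo_succ]
  split_ifs <;> simp <;> omega

lemma shell_inj (k r r' : ℕ) (h : shell k r = shell k r') :
    r = r' := by
  have h0 := congrFun h 0
  have h1 := congrFun h 1
  unfold shell ne at h0 h1
  rw [lo_succ] at h0
  split_ifs at h0 h1 <;> simp at h0 h1 <;> omega

/-- the spiral ordering of `ℤ^2` -/
def spiral (n : ℕ) : Fin 2 → ℤ := shell (Nat.sqrt n) (n - Nat.sqrt n * Nat.sqrt n)

lemma spiral_eq (k r : ℕ) (hr : r ≤ 2 * k) : spiral (k * k + r) = shell k r := by
  unfold spiral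
  rw [Nat.sqrt_add_eq k (by omega), Nat.add_sub_cancel_left]

lemma exists_kr (n : ℕ) : ∃ k r, r ≤ 2 * k ∧ n = k * k + r := by
  refine ⟨Nat.sqrt n, n - Nat.sqrt n * Nat.sqrt n, ?_, ?_⟩
  · have h1 := Nat.sqrt_le n
    have h2 := Nat.lt_succ_sqrt n
    have h3 : (Nat.sqrt n).succ * (Nat.sqrt n).succ = Nat.sqrt n * Nat.sqrt n + 2 * Nat.sqrt n + 1 := by
      rw [Nat.succ_eq_add_one]; ring
    omega
  · have h1 := Nat.sqrt_le n
    omega

lemma spiral_injective : Function.Injective spiral := by
  intro n n' h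
  obtain ⟨k, r, hr, rfl⟩ := exists_kr n
  obtain ⟨k', r', hr', rfl⟩ := exists_kr n'
  rw [spiral_eq k r hr, spiral_eq k' r' hr'] at h
  rcases lt_trichotomy k k' with hk | hk | hk
  · exfalso
    have h1 := sq_mono (show k + 1 ≤ k' from hk) (shell_mem k r hr)
    rw [h] at h1
    exact shell_notMem k' r' h1
  · subst hk
    rw [shell_inj k r r' h]
  · exfalso
    have h1 := sq_mono (show k' + 1 ≤ k from hk) (shell_mem k' r' hr')
    rw [← h] at h1
    exact shell_notMem k r h1

lemma image_sub_sq (k n : ℕ) (hn : n ≤ k * k) : (range n).image spiral ⊆ sq k := by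
  intro x hx
  rw [mem_image] at hx
  obtain ⟨i, hi, rfl⟩ := hx
  rw [mem_range] at hi
  obtain ⟨l, r, hr, rfl⟩ := exists_kr i
  rw [spiral_eq l r hr]
  have hl : l + 1 ≤ k := by
    by_contra hcon
    have : k ≤ l := by omega
    have : k * k ≤ l * l := Nat.mul_le_mul this this
    omega
  exact sq_mono hl (shell_mem l r hr)

lemma image_eq_sq (k : ℕ) : (range (k * k)).image spiral = sq k := by
  apply eq_of_subset_of_card_le (image_sub_sq k _ le_rfl)
  rw [card_image_of_injective _ spiral_injective, card_range, card_sq]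

lemma spiral_surjective : Function.Surjective spiral := by
  intro x
  have hx : x ∈ sq (2 * ((x 0).natAbs + (x 1).natAbs + 1)) := by
    rw [mem_sq]
    unfold lo
    have : 2 * ((x 0).natAbs + (x 1).natAbs + 1) / 2 = (x 0).natAbs + (x 1).natAbs + 1 := by omega
    rw [this]
    push_cast
    have h1 := le_abs_self (x 0)
    have h2 := neg_abs_le (x 0)
    have h3 := le_abs_self (x 1)
    have h4 := neg_abs_le (x 1)
    omega
  rw [← image_eq_sq, mem_image] at hx
  obtain ⟨i, -, hi⟩ := hx
  exact ⟨i, hi⟩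

/-- every point of the initial segment is in the square or in the new shell -/
lemma mem_segment (k r : ℕ) (hr : r ≤ 2 * k + 1) (x : Fin 2 → ℤ)
    (hx : x ∈ (range (k * k + r)).image spiral) : x ∈ sq k ∨ ∃ t < r, x = shell k t := by
  rw [mem_image] at hx
  obtain ⟨i, hi, rfl⟩ := hx
  rw [mem_range] at hi
  rcases Nat.lt_or_ge i (k * k) with h | h
  · left
    rw [← image_eq_sq]
    exact mem_image_of_mem _ (mem_range.mpr h)
  · right
    refine ⟨i - k * k, by omega, ?_⟩
    obtain ⟨t, rfl⟩ : ∃ t, i = k * k + t := ⟨i - k * k, by omega⟩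
    rw [spiral_eq k t (by omega), Nat.add_sub_cancel_left]

lemma card_segment (n : ℕ) : ((range n).image spiral).card = n := by
  rw [card_image_of_injective _ spiral_injective, card_range]

/-- upper bound while the vertical side is being filled -/
lemma upper_vertical (p : ℕ) (a b : ℤ) (ha : a ≤ 0) (ha' : 0 ≤ a + p) (hb : b ≤ 0) (hb' : 0 ≤ b + p)
    (k r : ℕ) (hr1 : 1 ≤ r) (hrk : r ≤ k) :
    vb (boxGen p p a b) ((range (k * k + r)).image spiral) + (k * k + r) ≤ (k + p) * (k + p) + (r + p) := by
  classical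
  set xs : ℤ := if k % 2 = 0 then lo k + k + a + p else lo k - 1 + a with hxs
  have h := vb_upper (U := boxGen p p a b) (S := (range (k * k + r)).image spiral)
    (E := Finset.Icc (![lo k + a, lo k + b] : Fin 2 → ℤ)
        ![lo k + a + ((k + p : ℕ) : ℤ) - 1, lo k + b + ((k + p : ℕ) : ℤ) - 1] ∪
      Finset.Icc (![xs, lo k + b] : Fin 2 → ℤ)
        ![xs + ((1 : ℕ) : ℤ) - 1, lo k + b + ((r + p : ℕ) : ℤ) - 1]) ?_ ?_
  · rw [card_segment] at h
    refine h.trans ((card_union_le _ _).trans ?_)
    rw [card_box, card_box]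
    omega
  · intro x hx
    rw [mem_union, mem_box, mem_box]
    rcases mem_segment k r (by omega) x hx with hx | ⟨t, ht, rfl⟩
    · rw [mem_sq] at hx
      left
      push_cast
      omega
    · have : t < k := by omega
      rw [shell, if_pos this, ne, hxs]
      simp only [Matrix.cons_val_zero, Matrix.cons_val_one]
      push_cast
      split_ifs <;> omega
  · intro x hx u hu
    rw [mem_boxGen] at hu
    rw [mem_union, mem_box, mem_box]
    simp only [Pi.add_apply]
    rcases mem_segment k r (by omega) x hx with hx | ⟨t, ht, rfl⟩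
    · rw [mem_sq] at hx
      left
      push_cast
      omega
    · have : t < k := by omega
      rw [shell, if_pos this, ne, hxs]
      simp only [Matrix.cons_val_zero, Matrix.cons_val_one]
      push_cast
      split_ifs <;> omega

/-- upper bound while the horizontal side is being filled -/
lemma upper_horizontal (p : ℕ) (a b : ℤ) (ha : a ≤ 0) (ha' : 0 ≤ a + p) (hb : b ≤ 0) (hb' : 0 ≤ b + p)
    (k s : ℕ) (hsk : s ≤ k + 1) :
    vb (boxGen p p a b) ((range (k * k + (k + s))).image spiral) + (k * k + (k + s))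
      ≤ (k + 1 + p) * (k + p) + (s + p) := by
  classical
  set ys : ℤ := if k % 2 = 0 then lo k + k + b + p else lo k - 1 + b with hys
  have h := vb_upper (U := boxGen p p a b) (S := (range (k * k + (k + s))).image spiral)
    (E := Finset.Icc (![lo (k + 1) + a, lo k + b] : Fin 2 → ℤ)
        ![lo (k + 1) + a + ((k + 1 + p : ℕ) : ℤ) - 1, lo k + b + ((k + p : ℕ) : ℤ) - 1] ∪
      Finset.Icc (![lo (k + 1) + a, ys] : Fin 2 → ℤ)
        ![lo (k + 1) + a + ((s + p : ℕ) : ℤ) - 1, ys + ((1 : ℕ) : ℤ) - 1]) ?_ ?_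
  · rw [card_segment] at h
    refine h.trans ((card_union_le _ _).trans ?_)
    rw [card_box, card_box]
    omega
  · intro x hx
    rw [mem_union, mem_box, mem_box]
    rcases mem_segment k (k + s) (by omega) x hx with hx | ⟨t, ht, rfl⟩
    · rw [mem_sq] at hx
      left
      rw [lo_succ]
      push_cast
      split_ifs <;> omega
    · rcases Nat.lt_or_ge t k with h | h
      · left
        rw [shell, if_pos h, ne, lo_succ]
        simp only [Matrix.cons_val_zero, Matrix.cons_val_one]
        push_cast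
        split_ifs <;> omega
      · rw [shell, if_neg (by omega), ne, hys, lo_succ]
        simp only [Matrix.cons_val_zero, Matrix.cons_val_one]
        push_cast
        split_ifs <;> omega
  · intro x hx u hu
    rw [mem_boxGen] at hu
    rw [mem_union, mem_box, mem_box]
    simp only [Pi.add_apply]
    rcases mem_segment k (k + s) (by omega) x hx with hx | ⟨t, ht, rfl⟩
    · rw [mem_sq] at hx
      left
      rw [lo_succ]
      push_cast
      split_ifs <;> omega
    · rcases Nat.lt_or_ge t k with h | h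
      · left
        rw [shell, if_pos h, ne, lo_succ]
        simp only [Matrix.cons_val_zero, Matrix.cons_val_one]
        push_cast
        split_ifs <;> omega
      · rw [shell, if_neg (by omega), ne, hys, lo_succ]
        simp only [Matrix.cons_val_zero, Matrix.cons_val_one]
        push_cast
        split_ifs <;> omega

/-- Initial segments of the spiral are optimal for every square box containing the origin. -/
theorem square_nested (p : ℕ) (a b : ℤ) (ha : a ≤ 0) (ha' : 0 ≤ a + p) (hb : b ≤ 0) (hb' : 0 ≤ b + p)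
    (n : ℕ) (hn : 1 ≤ n) :
    vb (boxGen p p a b) ((range n).image spiral) = vbMin (boxGen p p a b) n := by
  classical
  apply le_antisymm
  · obtain ⟨T, hT, hTv⟩ := vbMin_mem (boxGen p p a b) n
    rw [← hTv]
    have hne : T.Nonempty := by rw [← card_pos]; omega
    have h1 := vb_lower p p a b T hne
    have h2 := card_le_rows_cols T
    rw [hT] at h2
    refine le_trans ?_ h1
    obtain ⟨k, r, hr, rfl⟩ := exists_kr n
    have e : p * rows T + p * cols T + p * p = p * (rows T + cols T) + p * p := by ring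
    rw [e]
    generalize rows T = R at *
    generalize cols T = C at *
    have amgm : 4 * (R * C) ≤ (R + C) * (R + C) := by
      have : (0 : ℤ) ≤ ((R : ℤ) - C) ^ 2 := sq_nonneg _
      zify
      nlinarith
    rcases Nat.eq_zero_or_pos r with hr0 | hr0
    · -- a full square
      subst hr0
      have hRC : 2 * k ≤ R + C := by
        by_contra hcon
        push Not at hcon
        have : (R + C) * (R + C) < (2 * k) * (2 * k) := Nat.mul_self_lt_mul_self hcon
        nlinarith
      have hk1 : 1 ≤ k := by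
        rcases Nat.eq_zero_or_pos k with h | h
        · subst h; simp at hn
        · exact h
      have hup : vb (boxGen p p a b) ((range (k * k + 0)).image spiral) + (k * k + 0)
          ≤ (k + p) * (k + p) := by
        have h := vb_upper (U := boxGen p p a b) (S := (range (k * k + 0)).image spiral)
          (E := Finset.Icc (![lo k + a, lo k + b] : Fin 2 → ℤ)
            ![lo k + a + ((k + p : ℕ) : ℤ) - 1, lo k + b + ((k + p : ℕ) : ℤ) - 1]) ?_ ?_
        · rw [card_segment, card_box] at h
          exact h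
        · intro x hx
          rw [mem_box]
          rw [add_zero, image_eq_sq, mem_sq] at hx
          push_cast
          omega
        · intro x hx u hu
          rw [mem_boxGen] at hu
          rw [mem_box]
          rw [add_zero, image_eq_sq, mem_sq] at hx
          simp only [Pi.add_apply]
          push_cast
          omega
      have h5 : p * (2 * k) ≤ p * (R + C) := Nat.mul_le_mul_left _ hRC
      have h6 : (k + p) * (k + p) = k * k + p * (2 * k) + p * p := by ring
      omega
    · rcases Nat.lt_or_ge k r with hrk | hrk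
      · -- the horizontal side is being filled
        obtain ⟨s, rfl⟩ : ∃ s, r = k + s := ⟨r - k, by omega⟩
        have hRC : 2 * k + 2 ≤ R + C := by
          by_contra hcon
          push Not at hcon
          have h7 : R + C ≤ 2 * k + 1 := by omega
          have : (R + C) * (R + C) ≤ (2 * k + 1) * (2 * k + 1) := Nat.mul_self_le_mul_self h7
          nlinarith
        have hup := upper_horizontal p a b ha ha' hb hb' k s (by omega)
        have h5 : p * (2 * k + 2) ≤ p * (R + C) := Nat.mul_le_mul_left _ hRC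
        have h6 : (k + 1 + p) * (k + p) + (s + p) = k * k + (k + s) + (p * (2 * k + 2) + p * p) := by ring
        omega
      · -- the vertical side is being filled
        have hRC : 2 * k + 1 ≤ R + C := by
          by_contra hcon
          push Not at hcon
          have h7 : R + C ≤ 2 * k := by omega
          have : (R + C) * (R + C) ≤ (2 * k) * (2 * k) := Nat.mul_self_le_mul_self h7
          nlinarith
        have hup := upper_vertical p a b ha ha' hb hb' k r hr0 hrk
        have h5 : p * (2 * k + 1) ≤ p * (R + C) := Nat.mul_le_mul_left _ hRC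
        have h6 : (k + p) * (k + p) + (r + p) = k * k + r + (p * (2 * k + 1) + p * p) := by ring
        omega
  · have := vbMin_le (boxGen p p a b) ((range n).image spiral)
    rwa [card_segment] at this

lemma closure_boxGen (p q : ℕ) (hp : 1 ≤ p) (hq : 1 ≤ q) (a b : ℤ) (ha : a ≤ 0) (ha' : 0 ≤ a + p)
    (hb : b ≤ 0) (hb' : 0 ≤ b + q) :
    AddSubgroup.closure (boxGen p q a b : Set (Fin 2 → ℤ)) = ⊤ := by
  rw [eq_top_iff]
  rintro x -
  have hpos : (1 : ℤ) ≤ p := by exact_mod_cast hp
  have hqos : (1 : ℤ) ≤ q := by exact_mod_cast hq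
  have h0 : (Pi.single 0 1 : Fin 2 → ℤ) ∈ AddSubgroup.closure (boxGen p q a b : Set (Fin 2 → ℤ)) := by
    by_cases h : 1 ≤ a + p
    · apply AddSubgroup.subset_closure
      rw [mem_coe, mem_boxGen]
      refine ⟨?_, ?_, ?_⟩
      · intro h'
        have := congrFun h' 0
        simp at this
      · simp; omega
      · simp; omega
    · have : (-Pi.single 0 1 : Fin 2 → ℤ) ∈ AddSubgroup.closure (boxGen p q a b : Set (Fin 2 → ℤ)) := by
        apply AddSubgroup.subset_closure
        rw [mem_coe, mem_boxGen]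
        refine ⟨?_, ?_, ?_⟩
        · intro h'
          have := congrFun h' 0
          simp at this
        · simp; omega
        · simp; omega
      have h2 := AddSubgroup.neg_mem _ this
      rwa [neg_neg] at h2
  have h1 : (Pi.single 1 1 : Fin 2 → ℤ) ∈ AddSubgroup.closure (boxGen p q a b : Set (Fin 2 → ℤ)) := by
    by_cases h : 1 ≤ b + q
    · apply AddSubgroup.subset_closure
      rw [mem_coe, mem_boxGen]
      refine ⟨?_, ?_, ?_⟩
      · intro h'
        have := congrFun h' 1
        simp at this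
      · simp; omega
      · simp; omega
    · have : (-Pi.single 1 1 : Fin 2 → ℤ) ∈ AddSubgroup.closure (boxGen p q a b : Set (Fin 2 → ℤ)) := by
        apply AddSubgroup.subset_closure
        rw [mem_coe, mem_boxGen]
        refine ⟨?_, ?_, ?_⟩
        · intro h'
          have := congrFun h' 1
          simp at this
        · simp; omega
        · simp; omega
      have h2 := AddSubgroup.neg_mem _ this
      rwa [neg_neg] at h2
  have hx : x = x 0 • (Pi.single 0 1 : Fin 2 → ℤ) + x 1 • (Pi.single 1 1 : Fin 2 → ℤ) := by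
    ext i
    fin_cases i <;> simp
  rw [hx]
  exact AddSubgroup.add_mem _ (AddSubgroup.zsmul_mem _ h0 _) (AddSubgroup.zsmul_mem _ h1 _)

/-- Let `p, q ≥ 1` and let `U` be the set of nonzero points of a box `[a, a + p] × [b, b + q]` of `ℤ^2`
containing the origin.  Then `U` generates `ℤ^2`, and
* if `p = q`, there is an ordering of `ℤ^2` all of whose nonempty initial segments have the least
  vertex boundary for their size;
* if `p ≠ q`, then for every ordering of `ℤ^2` infinitely many initial segments have a vertex boundary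
  larger than the least one for their size. -/
theorem result :
    ∀ p q : ℕ, 1 ≤ p → 1 ≤ q → ∀ a b : ℤ, a ≤ 0 → 0 ≤ a + p → b ≤ 0 → 0 ≤ b + q →
      (0 : Fin 2 → ℤ) ∉ boxGen p q a b ∧
      AddSubgroup.closure (boxGen p q a b : Set (Fin 2 → ℤ)) = ⊤ ∧
      (p = q → ∃ w : ℕ → (Fin 2 → ℤ), Function.Bijective w ∧
        ∀ n : ℕ, 1 ≤ n → vb (boxGen p q a b) ((range n).image w) = vbMin (boxGen p q a b) n) ∧
      (p ≠ q → ∀ w : ℕ → (Fin 2 → ℤ), Function.Bijective w →
        {n : ℕ | vbMin (boxGen p q a b) n < vb (boxGen p q a b) ((range n).image w)}.Infinite) := by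
  classical
  intro p q hp hq a b ha ha' hb hb'
  refine ⟨?_, closure_boxGen p q hp hq a b ha ha' hb hb', ?_, ?_⟩
  · rw [mem_boxGen]
    simp
  · rintro rfl
    exact ⟨spiral, ⟨spiral_injective, spiral_surjective⟩, fun n hn => square_nested p a b ha ha' hb hb' n hn⟩
  · intro hpq w hw
    have hg : 0 < Nat.gcd p q := Nat.gcd_pos_of_pos_left _ hp
    obtain ⟨p', hp'⟩ := Nat.gcd_dvd_left p q
    obtain ⟨q', hq'⟩ := Nat.gcd_dvd_right p q
    set g := Nat.gcd p q with hgdef
    have hco : Nat.Coprime p' q' := by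
      have h := Nat.coprime_div_gcd_div_gcd hg
      rw [← hgdef] at h
      have e1 : p / g = p' := by
        conv_lhs => rw [hp']
        exact Nat.mul_div_cancel_left _ hg
      have e2 : q / g = q' := by
        conv_lhs => rw [hq']
        exact Nat.mul_div_cancel_left _ hg
      rwa [e1, e2] at h
    have hp1 : 1 ≤ p' := by
      rcases Nat.eq_zero_or_pos p' with h | h
      · rw [h, mul_zero] at hp'; omega
      · exact h
    have hq1 : 1 ≤ q' := by
      rcases Nat.eq_zero_or_pos q' with h | h
      · rw [h, mul_zero] at hq'; omega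
      · exact h
    have hne' : p' ≠ q' := by
      intro h
      apply hpq
      rw [hp', hq', h]
    have key := fails_infinitely g p' q' hg hp1 hq1 hco hne' a b ha (by rw [← hp']; exact ha') hb
      (by rw [← hq']; exact hb') w hw
    rwa [← hp', ← hq'] at key

end Pool.Agent.Results.MP_852f00_co.BoxClassification
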